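import Pool.Agent.HIP.Stmts

/-!
# Squad HIP, row AVZ: power saving from segments
-/

set_option autoImplicit false

namespace Pool.Agent.HIP.H21

open Polynomial NumberField Pool.Agent.HIK Pool.Agent.HIP

open scoped Classical in
theorem avz (box : BoxStmt) : AvzStmt := by
  intro K _ _ S δ hδ0 hδ1 hS
  obtain ⟨C1, hC1⟩ := box K
  obtain ⟨C0, X0, hX0⟩ := hS
  obtain ⟨m, hm⟩ : ∃ m, m = Module.finrank ℚ K := ⟨_, rfl⟩
  have hm1 : 1 ≤ m := by
    rw [hm]
    exact Module.finrank_pos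
  have hm1' : (1 : ℝ) ≤ (m : ℝ) := by exact_mod_cast hm1
  obtain ⟨X1, hX1⟩ : ∃ X1, X1 = max X0 1 := ⟨_, rfl⟩
  refine ⟨C1 * 3 ^ m * |C0| + C1 * (X1 + 1) ^ m, ?_⟩
  intro X hX
  rw [← hm]
  have hXr : (1 : ℝ) ≤ (X : ℝ) := by exact_mod_cast hX
  have hXp : (0 : ℝ) < (X : ℝ) := by linarith
  -- the finite sets
  let B : ℕ → Finset (𝓞 K) := fun Y => (hC1 Y).1.toFinset
  have hB : ∀ (Y : ℕ) (a : 𝓞 K), a ∈ B Y ↔ house (a : K) ≤ Y := fun Y a => by
    rw [(hC1 Y).1.mem_toFinset]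
    rfl
  have hBc : ∀ Y : ℕ, ((B Y).card : ℝ) ≤ C1 * ((Y : ℝ) + 1) ^ m := by
    intro Y
    have h1 := (hC1 Y).2
    rw [← hm, Nat.subtype_card (B Y) (hB Y)] at h1
    exact_mod_cast h1
  let F : Finset (𝓞 K) := (B X).filter fun a => a ∈ S
  have hF : Nat.card {a : 𝓞 K // a ∈ S ∧ house (a : K) ≤ X} = F.card := by
    apply Nat.subtype_card
    intro a
    rw [Finset.mem_filter, hB, and_comm]
  let G : 𝓞 K → Finset ℕ := fun b => (Finset.range X).filter fun j : ℕ => b + (j : 𝓞 K) ∈ S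
  have hG : ∀ b, Nat.card {j : ℕ // j < X ∧ b + (j : 𝓞 K) ∈ S} = (G b).card := by
    intro b
    apply Nat.subtype_card
    intro j
    rw [Finset.mem_filter, Finset.mem_range]
  rw [hF]
  have hpow : (1 : ℝ) ≤ (X : ℝ) ^ ((m : ℝ) - δ) := Real.one_le_rpow hXr (by linarith)
  rcases lt_or_ge X X1 with hlt | hge
  · -- small values
    have h1 : (F.card : ℝ) ≤ ((B X).card : ℝ) := by
      exact_mod_cast Finset.card_le_card (Finset.filter_subset _ _)
    have h2 : (C1 : ℝ) * ((X : ℝ) + 1) ^ m ≤ C1 * ((X1 : ℝ) + 1) ^ m := by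
      have h3 : (X : ℝ) ≤ (X1 : ℝ) := by exact_mod_cast hlt.le
      gcongr
    have h4 : (0 : ℝ) ≤ C1 * 3 ^ m * |C0| := by positivity
    have h5 : (0 : ℝ) ≤ C1 * ((X1 : ℝ) + 1) ^ m := by positivity
    calc (F.card : ℝ) ≤ C1 * ((X1 : ℝ) + 1) ^ m := le_trans h1 (le_trans (hBc X) h2)
      _ ≤ (C1 * 3 ^ m * |C0| + C1 * ((X1 : ℝ) + 1) ^ m) * 1 := by linarith
      _ ≤ _ := mul_le_mul_of_nonneg_left hpow (by linarith)
  · -- large values
    have hX2 : X0 ≤ X := le_trans (le_max_left _ _) (hX1 ▸ hge)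
    have hcount : F.card * X ≤ ∑ b ∈ B (2 * X), (G b).card := by
      rw [← Finset.card_sigma, ← Finset.card_range X, ← Finset.card_product]
      rw [Finset.card_range X]
      apply Finset.card_le_card_of_injOn
        (fun x : 𝓞 K × ℕ => (⟨x.1 - (x.2 : 𝓞 K), x.2⟩ : (_ : 𝓞 K) × ℕ))
      · intro x hx
        rw [Finset.mem_coe, Finset.mem_product, Finset.mem_filter, Finset.mem_range, hB] at hx
        rw [Finset.mem_coe, Finset.mem_sigma, hB, Finset.mem_filter, Finset.mem_range]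
        refine ⟨?_, hx.2, ?_⟩
        · have h1 : ((x.1 - (x.2 : 𝓞 K) : 𝓞 K) : K) = (x.1 : K) + ((-(x.2 : ℤ) : ℤ) : K) := by
            push_cast
            ring
          have h2 := house_add_le (x.1 : K) ((-(x.2 : ℤ) : ℤ) : K)
          rw [house_intCast] at h2
          have h3 : ((|(-(x.2 : ℤ))| : ℤ) : ℝ) = (x.2 : ℝ) := by
            rw [abs_neg, Nat.abs_cast]
            push_cast
            rfl
          rw [h3] at h2
          have h4 : (x.2 : ℝ) ≤ (X : ℝ) := by exact_mod_cast hx.2.le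
          show house ((x.1 - (x.2 : 𝓞 K) : 𝓞 K) : K) ≤ ((2 * X : ℕ) : ℝ)
          have h5 : house ((x.1 - (x.2 : 𝓞 K) : 𝓞 K) : K) ≤ house (x.1 : K) + (x.2 : ℝ) := by
            rw [h1]
            exact h2
          have h6 : ((2 * X : ℕ) : ℝ) = 2 * (X : ℝ) := by
            push_cast
            rfl
          rw [h6]
          linarith [hx.1.1]
        · show x.1 - (x.2 : 𝓞 K) + (x.2 : 𝓞 K) ∈ S
          rw [sub_add_cancel]
          exact hx.1.2
      · intro x _ y _ hxy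
        have h1 : x.2 = y.2 := congrArg Sigma.snd hxy
        have h2 : x.1 - (x.2 : 𝓞 K) = y.1 - (y.2 : 𝓞 K) := congrArg Sigma.fst hxy
        rw [h1] at h2
        exact Prod.ext (sub_left_injective h2) h1
    have hGle : ∀ b ∈ B (2 * X), ((G b).card : ℝ) ≤ |C0| * (X : ℝ) ^ (1 - δ) := by
      intro b hb
      rw [← hG b]
      rw [hB] at hb
      push_cast at hb
      refine le_trans (hX0 X hX2 b hb) ?_
      exact mul_le_mul_of_nonneg_right (le_abs_self _) (by positivity)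
    have h1 : (F.card : ℝ) * X ≤ (C1 * (2 * X + 1) ^ m) * (|C0| * (X : ℝ) ^ (1 - δ)) := by
      calc (F.card : ℝ) * X = ((F.card * X : ℕ) : ℝ) := by push_cast; rfl
        _ ≤ ((∑ b ∈ B (2 * X), (G b).card : ℕ) : ℝ) := by exact_mod_cast hcount
        _ = ∑ b ∈ B (2 * X), ((G b).card : ℝ) := by push_cast; rfl
        _ ≤ ∑ b ∈ B (2 * X), |C0| * (X : ℝ) ^ (1 - δ) := Finset.sum_le_sum hGle
        _ = ((B (2 * X)).card : ℝ) * (|C0| * (X : ℝ) ^ (1 - δ)) := by
          rw [Finset.sum_const, nsmul_eq_mul]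
        _ ≤ _ := by
          apply mul_le_mul_of_nonneg_right
          · have := hBc (2 * X)
            push_cast at this
            exact this
          · positivity
    have h2 : ((2 : ℝ) * X + 1) ^ m ≤ (3 * X) ^ m := by
      apply pow_le_pow_left₀ (by positivity)
      linarith
    have h3 : (X : ℝ) ^ m * (X : ℝ) ^ (1 - δ) = (X : ℝ) ^ ((m : ℝ) - δ) * X := by
      rw [← Real.rpow_natCast, ← Real.rpow_add hXp]
      have : (m : ℝ) + (1 - δ) = ((m : ℝ) - δ) + 1 := by ring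
      rw [this, Real.rpow_add hXp, Real.rpow_one]
    have h4 : (F.card : ℝ) * X ≤ (C1 * 3 ^ m * |C0| * (X : ℝ) ^ ((m : ℝ) - δ)) * X := by
      calc (F.card : ℝ) * X ≤ (C1 * (2 * X + 1) ^ m) * (|C0| * (X : ℝ) ^ (1 - δ)) := h1
        _ ≤ (C1 * (3 * X) ^ m) * (|C0| * (X : ℝ) ^ (1 - δ)) := by
          apply mul_le_mul_of_nonneg_right
          · exact mul_le_mul_of_nonneg_left h2 (Nat.cast_nonneg C1)
          · positivity
        _ = C1 * 3 ^ m * |C0| * ((X : ℝ) ^ m * (X : ℝ) ^ (1 - δ)) := by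
          rw [mul_pow]
          ring
        _ = _ := by
          rw [h3]
          ring
    have h5 : (F.card : ℝ) ≤ C1 * 3 ^ m * |C0| * (X : ℝ) ^ ((m : ℝ) - δ) :=
      le_of_mul_le_mul_right h4 hXp
    have h6 : (0 : ℝ) ≤ C1 * ((X1 : ℝ) + 1) ^ m * (X : ℝ) ^ ((m : ℝ) - δ) := by positivity
    calc (F.card : ℝ) ≤ C1 * 3 ^ m * |C0| * (X : ℝ) ^ ((m : ℝ) - δ) := h5
      _ ≤ _ := by
        rw [add_mul]
        linarith

end Pool.Agent.HIP.H21
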